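import Pool.Agent.ZPK.StmtsD
import Pool.Agent.Helper13_ZP3.RAYa

/-!
Squad ZPK, row CTA: counting modulo `p`.
-/

set_option autoImplicit false

namespace Pool.Agent.ZPK.H80

open Polynomial Pool.Agent.ZPT Pool.Agent.ZP3

noncomputable section

lemma nint_eq {p : ℕ} {K : Type} [NormedField K] [CharZero K] (hK : Ext p K) (z : ℤ) :
    ‖(z : K)‖ = ((padicNorm p (z : ℚ) : ℚ) : ℝ) := by
  have h := hK (z : ℚ)
  rwa [Rat.cast_intCast] at h

lemma nint_le {p : ℕ} (hp : p.Prime) {K : Type} [NormedField K] [CharZero K] (hK : Ext p K)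
    (z : ℤ) : ‖(z : K)‖ ≤ 1 := by
  haveI := Fact.mk hp
  rw [nint_eq hK]
  exact_mod_cast padicNorm.of_int z

lemma nint_lt {p : ℕ} (hp : p.Prime) {K : Type} [NormedField K] [CharZero K] (hK : Ext p K)
    (z : ℤ) : ‖(z : K)‖ < 1 ↔ (p : ℤ) ∣ z := by
  haveI := Fact.mk hp
  rw [nint_eq hK, ← padicNorm.int_lt_one_iff (p := p) z]
  constructor
  · intro h
    exact_mod_cast h
  · intro h
    exact_mod_cast h

lemma sv_sub {K : Type} [NormedField K] {m : ℕ} (β : Fin m → K) (x y : Fin m → ℤ) :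
    sv β x - sv β y = ∑ r, ((x r - y r : ℤ) : K) * β r := by
  unfold sv
  rw [← Finset.sum_sub_distrib]
  refine Finset.sum_congr rfl fun r _ => ?_
  push_cast
  ring

lemma sv_cong {p : ℕ} (hp : p.Prime) {K : Type} [NormedField K] [CharZero K]
    [IsUltrametricDist K] (hK : Ext p K) {m : ℕ} {β : Fin m → K} (hβ : ∀ r, ‖β r‖ ≤ 1)
    {x y : Fin m → ℤ} (h : ∀ r, (p : ℤ) ∣ x r - y r) : ‖sv β x - sv β y‖ < 1 := by
  rw [sv_sub]
  refine H13.sumlt _ _ fun r _ => ?_
  rw [norm_mul]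
  exact (mul_le_of_le_one_right (norm_nonneg _) (hβ r)).trans_lt ((nint_lt hp hK _).2 (h r))

/-- two basis elements independent modulo the maximal ideal -/
lemma two_dvd {p : ℕ} (hp : p.Prime) {K : Type} [NormedField K] [CharZero K]
    [IsUltrametricDist K] (hK : Ext p K) {b₀ b₁ : K} (h0 : ‖b₀‖ = 1) (h1 : ‖b₁‖ ≤ 1)
    (hb : ∀ z : ℤ, ‖b₁ - z * b₀‖ = 1) {u₀ u₁ : ℤ} (h : ‖(u₀ : K) * b₀ + (u₁ : K) * b₁‖ < 1) :
    (p : ℤ) ∣ u₀ ∧ (p : ℤ) ∣ u₁ := by
  have hu1 : (p : ℤ) ∣ u₁ := by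
    by_contra hnd
    have hcop : IsCoprime u₁ (p : ℤ) :=
      ((Nat.prime_iff_prime_int.1 hp).coprime_iff_not_dvd.2 hnd).symm
    obtain ⟨v, w, hvw⟩ := hcop
    have h2 : ‖(v : K) * ((u₀ : K) * b₀ + (u₁ : K) * b₁)‖ < 1 := H13.mlt (nint_le hp hK v) h
    have h3 : b₁ - ((-(v * u₀) : ℤ) : K) * b₀ =
        (v : K) * ((u₀ : K) * b₀ + (u₁ : K) * b₁) + ((w * (p : ℤ) : ℤ) : K) * b₁ := by
      have h4 : (v : K) * (u₁ : K) + (w : K) * (p : K) = 1 := by exact_mod_cast hvw
      push_cast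
      linear_combination (-b₁) * h4
    have h5 : ‖((w * (p : ℤ) : ℤ) : K) * b₁‖ < 1 := by
      rw [norm_mul]
      exact (mul_le_of_le_one_right (norm_nonneg _) h1).trans_lt
        ((nint_lt hp hK _).2 (dvd_mul_left _ _))
    have h6 := H13.ult h2 h5
    rw [← h3, hb] at h6
    exact lt_irrefl _ h6
  refine ⟨?_, hu1⟩
  have h2 : ‖(u₁ : K) * b₁‖ < 1 := by
    rw [norm_mul]
    exact (mul_le_of_le_one_right (norm_nonneg _) h1).trans_lt ((nint_lt hp hK _).2 hu1)
  have h3 : ‖(u₀ : K) * b₀‖ < 1 := by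
    have : (u₀ : K) * b₀ = ((u₀ : K) * b₀ + (u₁ : K) * b₁) - (u₁ : K) * b₁ := by ring
    rw [this]
    exact H13.uslt h h2
  rw [norm_mul, h0, mul_one] at h3
  exact (nint_lt hp hK _).1 h3

/-- The box of all residues modulo `p ^ 2`. -/
def Box (p n m : ℕ) : Finset (Fin n → Fin m → ℤ) :=
  Fintype.piFinset fun _ => Fintype.piFinset fun _ => Finset.Ico (0 : ℤ) ((p : ℤ) ^ 2)

lemma mem_Box {p n m : ℕ} {x : Fin n → Fin m → ℤ} :
    x ∈ Box p n m ↔ ∀ i r, 0 ≤ x i r ∧ x i r < (p : ℤ) ^ 2 := by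
  simp [Box, Fintype.mem_piFinset]

lemma card_Box (p n m : ℕ) : (Box p n m).card = p ^ (2 * (n * m)) := by
  have h : ((p : ℤ) ^ 2).toNat = p ^ 2 := by
    rw [← Nat.cast_pow, Int.toNat_natCast]
  simp only [Box, Fintype.card_piFinset, Int.card_Ico, sub_zero, h, Finset.prod_const,
    Finset.card_univ, Fintype.card_fin]
  rw [← pow_mul, ← pow_mul]
  congr 1
  ring

/-- Changing the residues modulo `p` of two coordinates. -/
lemma chg_inj {p : ℕ} (hp : p.Prime) {q q' s s' : ℤ} (hs : 0 ≤ s ∧ s < p) (hs' : 0 ≤ s' ∧ s' < p)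
    (h : q * p + s = q' * p + s') : q = q' ∧ s = s' := by
  have hp0 : (0 : ℤ) < p := by exact_mod_cast hp.pos
  have h1 : (q * p + s) / p = q := by
    rw [Int.add_comm, Int.add_mul_ediv_right _ _ hp0.ne', Int.ediv_eq_zero_of_lt hs.1 hs.2]
    ring
  have h2 : (q' * p + s') / p = q' := by
    rw [Int.add_comm, Int.add_mul_ediv_right _ _ hp0.ne', Int.ediv_eq_zero_of_lt hs'.1 hs'.2]
    ring
  have h3 : q = q' := by rw [← h1, ← h2, h]
  subst h3
  exact ⟨rfl, by linarith⟩

lemma chg_mem {p : ℕ} (hp : p.Prime) {y s : ℤ} (hy : 0 ≤ y ∧ y < (p : ℤ) ^ 2)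
    (hs : 0 ≤ s ∧ s < p) : 0 ≤ y / p * p + s ∧ y / p * p + s < (p : ℤ) ^ 2 := by
  have hp0 : (0 : ℤ) < p := by exact_mod_cast hp.pos
  have h1 : 0 ≤ y / p := Int.ediv_nonneg hy.1 hp0.le
  have h2 : y / p < p := by
    rw [Int.ediv_lt_iff_lt_mul hp0]
    nlinarith [hy.2]
  constructor
  · nlinarith [hs.1]
  · nlinarith [hs.2]

theorem cta : CtaStmt := by
  classical
  intro p hp K _ _ _ hK n m β hβ i E hE
  obtain ⟨hβ1, r₀, r₁, hr01, hb0, hb1⟩ := hβ
  have hp0 : (0 : ℤ) < p := by exact_mod_cast hp.pos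
  have hsub : Rs p E ⊆ (Box p n m : Set (Fin n → Fin m → ℤ)) := fun x hx => mem_Box.2 hx.1
  have hfin : (Rs p E).Finite := (Finset.finite_toSet _).subset hsub
  set R : Finset (Fin n → Fin m → ℤ) := hfin.toFinset with hR
  have hRm : ∀ x, x ∈ R ↔ x ∈ Rs p E := fun x => by simp [hR]
  have hcard : (Rs p E).ncard = R.card := Set.ncard_eq_toFinset_card _ hfin
  set I : Finset ℤ := Finset.Ico (0 : ℤ) p with hI
  have hIc : I.card = p := by simp [hI]
  set g : (Fin n → Fin m → ℤ) × ℤ × ℤ → Fin n → Fin m → ℤ := fun w k r =>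
    if k = i then (if r = r₀ then w.1 i r₀ / p * p + w.2.1 else
      if r = r₁ then w.1 i r₁ / p * p + w.2.2 else w.1 i r) else w.1 k r with hg
  have hle : (R ×ˢ (I ×ˢ I)).card ≤ (Box p n m).card := by
    refine Finset.card_le_card_of_injOn g ?_ ?_
    · rintro ⟨x, s, t⟩ hx
      have hx' := Finset.mem_coe.1 hx
      rw [Finset.mem_product, Finset.mem_product] at hx'
      obtain ⟨h1, h2, h3⟩ := hx'
      have hxR := ((hRm x).1 h1).1
      have h2' := Finset.mem_Ico.1 h2
      have h3' := Finset.mem_Ico.1 h3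
      refine Finset.mem_coe.2 (mem_Box.2 fun k r => ?_)
      simp only [hg]
      split_ifs with hk hr hr'
      · exact chg_mem hp (hxR i r₀) h2'
      · exact chg_mem hp (hxR i r₁) h3'
      · exact hxR i r
      · exact hxR k r
    · rintro ⟨x, s, t⟩ hx ⟨x', s', t'⟩ hx' heq
      have hx := Finset.mem_coe.1 hx
      have hx' := Finset.mem_coe.1 hx'
      rw [Finset.mem_product, Finset.mem_product] at hx hx'
      obtain ⟨h1, h2, h3⟩ := hx
      obtain ⟨h1', h2', h3'⟩ := hx'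
      have h2 := Finset.mem_Ico.1 h2
      have h3 := Finset.mem_Ico.1 h3
      have h2' := Finset.mem_Ico.1 h2'
      have h3' := Finset.mem_Ico.1 h3'
      obtain ⟨hxR, a, haE, ha⟩ := (hRm x).1 h1
      obtain ⟨hxR', a', haE', ha'⟩ := (hRm x').1 h1'
      have hk : ∀ k, k ≠ i → ∀ r, x k r = x' k r := by
        intro k hk r
        have := congrFun (congrFun heq k) r
        simpa only [hg, if_neg hk] using this
      have h00 := congrFun (congrFun heq i) r₀
      simp only [hg, if_true] at h00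
      obtain ⟨hq0, hs0⟩ := chg_inj hp h2 h2' h00
      have h11 := congrFun (congrFun heq i) r₁
      simp only [hg, if_true, if_neg hr01.symm] at h11
      obtain ⟨hq1, hs1⟩ := chg_inj hp h3 h3' h11
      have hrr : ∀ r, r ≠ r₀ → r ≠ r₁ → x i r = x' i r := by
        intro r hr hr'
        have := congrFun (congrFun heq i) r
        simpa only [hg, if_true, if_neg hr, if_neg hr'] using this
      -- the rows `i` agree modulo the maximal ideal
      have hd1 : (p : ℤ) ∣ (p : ℤ) ^ 2 := dvd_pow_self _ two_ne_zero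
      have hA : ‖sv β (x i) - sv β (a i)‖ < 1 :=
        sv_cong hp hK hβ1 fun r => hd1.trans (ha i r)
      have hA' : ‖sv β (x' i) - sv β (a' i)‖ < 1 :=
        sv_cong hp hK hβ1 fun r => hd1.trans (ha' i r)
      have hAA : ‖sv β (a i) - sv β (a' i)‖ < 1 := by
        refine hE a haE a' haE' fun k hki r => ?_
        have e1 := ha k r
        have e2 := ha' k r
        rw [hk k hki r] at e1
        have e3 : a k r - a' k r = (x' k r - a' k r) - (x' k r - a k r) := by ring
        rw [e3]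
        exact dvd_sub e2 e1
      have hX : ‖sv β (x i) - sv β (x' i)‖ < 1 := by
        have e : sv β (x i) - sv β (x' i) =
            ((sv β (x i) - sv β (a i)) + (sv β (a i) - sv β (a' i))) -
              (sv β (x' i) - sv β (a' i)) := by ring
        rw [e]
        exact H13.uslt (H13.ult hA hAA) hA'
      rw [sv_sub] at hX
      have hsum : ∑ r, ((x i r - x' i r : ℤ) : K) * β r =
          ((x i r₀ - x' i r₀ : ℤ) : K) * β r₀ + ((x i r₁ - x' i r₁ : ℤ) : K) * β r₁ := by
        rw [← Finset.sum_pair (f := fun r => ((x i r - x' i r : ℤ) : K) * β r) hr01]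
        symm
        refine Finset.sum_subset (Finset.subset_univ _) fun r _ hr => ?_
        rw [Finset.mem_insert, Finset.mem_singleton, not_or] at hr
        rw [hrr r hr.1 hr.2, sub_self, Int.cast_zero, zero_mul]
      rw [hsum] at hX
      obtain ⟨hd0, hd1'⟩ := two_dvd hp hK hb0 (hβ1 r₁) hb1 hX
      have hfinal : ∀ {y y' : ℤ}, y / p = y' / p → (p : ℤ) ∣ y - y' → y = y' := by
        intro y y' e1 e2
        have e3 : y % p = y' % p := (Int.emod_eq_emod_iff_emod_sub_eq_zero).2 (Int.emod_eq_zero_of_dvd e2)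
        rw [← Int.mul_ediv_add_emod y p, ← Int.mul_ediv_add_emod y' p, e1, e3]
      have hxx : x = x' := by
        funext k r
        by_cases hki : k = i
        · subst hki
          by_cases hr : r = r₀
          · subst hr
            exact hfinal hq0 hd0
          · by_cases hr' : r = r₁
            · subst hr'
              exact hfinal hq1 hd1'
            · exact hrr r hr hr'
        · exact hk k hki r
      subst hxx
      exact Prod.ext rfl (Prod.ext hs0 hs1)
  rw [Finset.card_product, Finset.card_product, hIc, card_Box] at hle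
  rw [hcard, pow_two]
  exact hle

end

end Pool.Agent.ZPK.H80
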