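import Pool.Agent.ZPK.StmtsA
import Pool.Agent.Helper13_ZP3.RAYa

/-!
Squad ZPK, row UNF: a number field is unramified at large primes.
-/

set_option autoImplicit false

namespace Pool.Agent.ZPK.H80

open Polynomial Pool.Agent.ZPT Pool.Agent.ZP3
open scoped NumberField

noncomputable section

lemma pow_close {K : Type} [NormedField K] [IsUltrametricDist K] {r : ℝ} (hr : 0 ≤ r) {u v : K}
    (hu : ‖u‖ ≤ 1) (hv : ‖v‖ ≤ 1) (h : ‖u - v‖ ≤ r) (n : ℕ) : ‖u ^ n - v ^ n‖ ≤ r := by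
  induction n with
  | zero => simpa using hr
  | succ n ih =>
    have h1 : u ^ (n + 1) - v ^ (n + 1) = u ^ n * (u - v) + v * (u ^ n - v ^ n) := by ring
    rw [h1]
    apply H13.ule
    · rw [norm_mul]
      exact (mul_le_of_le_one_left (norm_nonneg _) (H13.ple hu n)).trans h
    · rw [norm_mul]
      exact (mul_le_of_le_one_left (norm_nonneg _) hv).trans ih

lemma mul_exp {K : Type} [NormedField K] [IsUltrametricDist K] {p : ℕ} {a : K} (ha : ‖a‖ ≤ 1)
    {f : ℕ} (h : ‖a ^ (p ^ f) - a‖ ≤ (p : ℝ)⁻¹) (k : ℕ) :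
    ‖a ^ (p ^ (f * k)) - a‖ ≤ (p : ℝ)⁻¹ := by
  have hp0 : (0 : ℝ) ≤ (p : ℝ)⁻¹ := by positivity
  induction k with
  | zero => simpa using hp0
  | succ k ih =>
    have h1 : a ^ (p ^ (f * (k + 1))) - a =
        ((a ^ (p ^ f)) ^ (p ^ (f * k)) - a ^ (p ^ (f * k))) + (a ^ (p ^ (f * k)) - a) := by
      rw [← pow_mul, ← pow_add, Nat.mul_succ, Nat.add_comm (f * k) f]
      ring
    rw [h1]
    exact H13.ule (pow_close hp0 (H13.ple ha _) ha h _) ih

/-- The subring of integral elements fixed modulo `p` by `x ↦ x ^ (p ^ m)`. -/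
def WR {K : Type} [NormedField K] [CharZero K] [IsUltrametricDist K] {p : ℕ} (hp : p.Prime)
    (hodd : Odd p) (hK : Ext p K) (m : ℕ) : Subring K where
  carrier := {x | ‖x‖ ≤ 1 ∧ ‖x ^ (p ^ m) - x‖ ≤ (p : ℝ)⁻¹}
  mul_mem' := by
    rintro a b ⟨ha, ha'⟩ ⟨hb, hb'⟩
    refine ⟨H13.mle ha hb, ?_⟩
    have h1 : (a * b) ^ (p ^ m) - a * b =
        b ^ (p ^ m) * (a ^ (p ^ m) - a) + a * (b ^ (p ^ m) - b) := by
      rw [mul_pow]; ring
    rw [h1]
    apply H13.ule
    · rw [norm_mul]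
      exact (mul_le_of_le_one_left (norm_nonneg _) (H13.ple hb _)).trans ha'
    · rw [norm_mul]
      exact (mul_le_of_le_one_left (norm_nonneg _) ha).trans hb'
  one_mem' := by
    refine ⟨by simp, ?_⟩
    have : (0 : ℝ) ≤ (p : ℝ)⁻¹ := by positivity
    simpa using this
  add_mem' := by
    rintro a b ⟨ha, ha'⟩ ⟨hb, hb'⟩
    refine ⟨H13.ule ha hb, ?_⟩
    obtain ⟨r, hr⟩ := exists_add_pow_prime_pow_eq hp (⟨a, ha⟩ : H13.OO K) ⟨b, hb⟩ m
    have h1 := congrArg (fun z : H13.OO K => (z : K)) hr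
    push_cast at h1
    have h2 : (a + b) ^ (p ^ m) - (a + b) =
        (p : K) * (a * b * (r : K)) + ((a ^ (p ^ m) - a) + (b ^ (p ^ m) - b)) := by
      rw [h1]; ring
    rw [h2]
    apply H13.ule
    · rw [norm_mul, H13.normp hp hK]
      exact mul_le_of_le_one_right (by positivity) (H13.mle (H13.mle ha hb) r.2)
    · exact H13.ule ha' hb'
  zero_mem' := by
    refine ⟨by simp, ?_⟩
    have h0 : p ^ m ≠ 0 := pow_ne_zero _ hp.ne_zero
    have : (0 : ℝ) ≤ (p : ℝ)⁻¹ := by positivity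
    rw [zero_pow h0]
    simpa using this
  neg_mem' := by
    rintro a ⟨ha, ha'⟩
    refine ⟨by rwa [norm_neg], ?_⟩
    have h1 : (-a) ^ (p ^ m) - (-a) = -(a ^ (p ^ m) - a) := by
      rw [Odd.neg_pow (hodd.pow)]; ring
    rw [h1, norm_neg]
    exact ha'

theorem unf (hI : IntStmt) (hU : URAStmt) : UnfStmt := by
  classical
  intro S
  set F : IntermediateField ℚ Qb := IntermediateField.adjoin ℚ (S : Set Qb) with hF
  haveI halg : Algebra.IsAlgebraic ℚ Qb := algebraicClosure.isAlgebraic ℚ ℂ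
  have hfd : FiniteDimensional ℚ F := by
    have : Finite (S : Set Qb) := S.finite_toSet
    exact IntermediateField.finiteDimensional_adjoin
      (fun x _ => (Algebra.IsAlgebraic.isAlgebraic x).isIntegral)
  haveI hnf : NumberField F := { to_charZero := inferInstance, to_finiteDimensional := hfd }
  obtain ⟨T, hT⟩ := (Module.Finite.fg_top : (⊤ : Submodule ℤ (𝓞 F)).FG)
  obtain ⟨p₀, hp₀⟩ := hU (T.image (fun t : 𝓞 F => ((t : F) : Qb)))
  refine ⟨max p₀ 3, ?_⟩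
  intro p hp hpp K _ _ _ hK ι
  have hpodd : Odd p := hp.odd_of_ne_two (by have := le_max_right p₀ 3; omega)
  have hall := hp₀ p hp ((le_max_left _ _).trans hpp) K hK ι
  have hall' : ∀ t : 𝓞 F, ∃ f : ℕ, 1 ≤ f ∧
      (t ∈ T → ‖ι ((t : F) : Qb)‖ ≤ 1 ∧
        ‖ι ((t : F) : Qb) ^ (p ^ f) - ι ((t : F) : Qb)‖ ≤ (p : ℝ)⁻¹) := by
    intro t
    by_cases ht : t ∈ T
    · obtain ⟨⟨h1, f, hf, h2⟩, -⟩ := hall _ (Finset.mem_image_of_mem _ ht)
      exact ⟨f, hf, fun _ => ⟨h1, h2⟩⟩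
    · exact ⟨1, le_rfl, fun h => absurd h ht⟩
  choose f hf1 hf using hall'
  set m : ℕ := ∏ t ∈ T, f t with hm
  have hm1 : 1 ≤ m := Nat.succ_le_of_lt (Finset.prod_pos fun t _ => hf1 t)
  set ι' : F →+* K := ι.comp (algebraMap F Qb) with hι'
  have hι'a : ∀ x : F, ι' x = ι (x : Qb) := fun x => rfl
  -- all integers of `F` are in the subring
  have hint : ∀ y : 𝓞 F, ι' (y : F) ∈ WR hp hpodd hK m := by
    intro y
    have hy : y ∈ Submodule.span ℤ (T : Set (𝓞 F)) := by rw [hT]; trivial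
    induction hy using Submodule.span_induction with
    | mem t ht =>
      have ht' : t ∈ T := ht
      obtain ⟨h1, h2⟩ := hf t ht'
      obtain ⟨k, hk⟩ := Finset.dvd_prod_of_mem f ht'
      refine ⟨h1, ?_⟩
      have := mul_exp h1 h2 k
      rw [← hk] at this
      exact this
    | zero =>
      have : ι' (((0 : 𝓞 F)) : F) = 0 := by simp
      rw [this]
      exact zero_mem _
    | add a b _ _ ha hb =>
      have : ι' (((a + b : 𝓞 F)) : F) = ι' (a : F) + ι' (b : F) := by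
        rw [← map_add]; rfl
      rw [this]
      exact add_mem ha hb
    | smul c a _ ha =>
      have : ι' (((c • a : 𝓞 F)) : F) = c • ι' (a : F) := by
        rw [← map_zsmul]; rfl
      rw [this]
      exact zsmul_mem ha c
  refine ⟨m, hm1, ?_⟩
  rintro x ⟨y, hy, rfl⟩ hx
  have hyF : y ∈ F := by
    have hle : Subfield.closure (S : Set Qb) ≤ F.toSubfield :=
      Subfield.closure_le.2 (IntermediateField.subset_adjoin ℚ (S : Set Qb))
    exact hle hy
  obtain ⟨-, h2⟩ := hI F K ι'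
  obtain ⟨u, z, hz, huz⟩ := h2 ⟨y, hyF⟩ hx
  obtain ⟨hu1, hu2⟩ := hint u
  obtain ⟨hz1, hz2⟩ := hint z
  have hX : ι y = ι' ⟨y, hyF⟩ := rfl
  rw [hX] at hx ⊢
  have hmul : ι' ⟨y, hyF⟩ * ι' (z : F) = ι' (u : F) := by rw [← map_mul, huz]
  generalize ι' ⟨y, hyF⟩ = X at hx hmul ⊢
  generalize ι' (z : F) = Z at hz hz1 hz2 hmul
  generalize ι' (u : F) = Y at hu1 hu2 hmul
  have h3 : Z * (X ^ (p ^ m) - X) =
      (Y ^ (p ^ m) - Y) - X ^ (p ^ m) * (Z ^ (p ^ m) - Z) := by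
    rw [← hmul, mul_pow]; ring
  have h4 : ‖Z * (X ^ (p ^ m) - X)‖ ≤ (p : ℝ)⁻¹ := by
    rw [h3]
    apply H13.usle hu2
    rw [norm_mul]
    exact (mul_le_of_le_one_left (norm_nonneg _) (H13.ple hx _)).trans hz2
  rwa [norm_mul, hz, one_mul] at h4

end

end Pool.Agent.ZPK.H80
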